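import Mathlib
import Pool.Agent.Helper43.Hw.Goals2

/-! Packet H17: almost all `m`. -/

set_option autoImplicit false

namespace Pool.Agent.Helper43.Hw.PkH17

open Finset
open Pool.Agent.Helper43.Hw

theorem ne_sq {n q : ℕ} (hn : ¬ IsSquare n) (hq : 1 ≤ q) (p : ℤ) :
    (4 * (q : ℤ) ^ 2 * n - p ^ 2) ≠ 0 := by
  intro h
  apply hn
  have h1 : (2 * q) ^ 2 * n = p.natAbs ^ 2 := by
    have h2 : ((p.natAbs ^ 2 : ℕ) : ℤ) = p ^ 2 := by
      push_cast
      exact sq_abs p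
    have h3 : (((2 * q) ^ 2 * n : ℕ) : ℤ) = ((p.natAbs ^ 2 : ℕ) : ℤ) := by
      rw [h2]
      push_cast
      linarith
    exact_mod_cast h3
  have h4 : (2 * q) ∣ p.natAbs := by
    rw [← Nat.pow_dvd_pow_iff (n := 2) two_ne_zero]
    exact ⟨n, h1.symm⟩
  obtain ⟨k, hk⟩ := h4
  refine ⟨k, ?_⟩
  have h4 : (2 * q) ^ 2 * n = (2 * q) ^ 2 * k ^ 2 := by rw [h1, hk]; ring
  have h5 := Nat.eq_of_mul_eq_mul_left (by positivity) h4
  rw [h5]
  ring

theorem dist_lower {n q : ℕ} (hn : ¬ IsSquare n) (hn1 : 1 ≤ n) (hq : 1 ≤ q) {δ : ℝ}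
    (hδ : 0 < δ) (hδ1 : δ < 1 / 4) (hqδ : (q : ℝ) * (2 * δ) ≤ 1) (p : ℤ) :
    2 * δ / (5 * Real.sqrt n) ≤ |(q : ℝ) * (2 * Real.sqrt n) - p| := by
  have hN : (1 : ℝ) ≤ n := by exact_mod_cast hn1
  have hs : (1 : ℝ) ≤ Real.sqrt n := Real.one_le_sqrt.2 hN
  have hs2 : Real.sqrt n * Real.sqrt n = n := Real.mul_self_sqrt (by linarith)
  have hq1 : (1 : ℝ) ≤ q := by exact_mod_cast hq
  set s := Real.sqrt n with hsdef
  set A : ℝ := (q : ℝ) * (2 * s) with hA
  have hqs : 1 ≤ (q : ℝ) * s := one_le_mul_of_one_le_of_one_le hq1 hs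
  have h1 : (1 : ℝ) ≤ |A - p| * |A + p| := by
    rw [← abs_mul]
    have h2 : (A - p) * (A + p) = (((4 * (q : ℤ) ^ 2 * n - p ^ 2 : ℤ)) : ℝ) := by
      push_cast
      rw [hA]
      nlinarith [hs2]
    rw [h2]
    have h3 := Int.one_le_abs (ne_sq hn hq p)
    exact_mod_cast h3
  rw [div_le_iff₀ (by positivity)]
  by_cases hc : 1 ≤ |A - p|
  · nlinarith
  · push Not at hc
    have h2 : |A + p| ≤ 5 * (q * s) := by
      have h3 : A + p = 2 * A - (A - p) := by ring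
      rw [h3]
      refine (abs_sub _ _).trans ?_
      rw [abs_of_nonneg (by rw [hA]; positivity)]
      have : 2 * A = 4 * (q * s) := by rw [hA]; ring
      rw [this]
      linarith
    have h3 : 1 ≤ |A - p| * (5 * (q * s)) :=
      h1.trans (mul_le_mul_of_nonneg_left h2 (abs_nonneg _))
    have h4 : (q : ℝ) * (2 * δ) ≤ (q : ℝ) * (|A - p| * (5 * s)) := by
      calc (q : ℝ) * (2 * δ) ≤ 1 := hqδ
        _ ≤ |A - p| * (5 * (q * s)) := h3
        _ = (q : ℝ) * (|A - p| * (5 * s)) := by ring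
    exact le_of_mul_le_mul_left h4 (by linarith)

/-- The key inequality. -/
theorem key {N C δ ε x l m d W : ℝ} (hN : 1 ≤ N) (hδ : 0 < δ) (hε : 0 < ε)
    (hx : 0 < x) (hm0 : 0 < m) (hd : 0 ≤ d)
    (hW : W = m ^ 2 / N * l ^ 3 + Real.sqrt (m * N))
    (hE1 : 16 * C * l ^ 3 ≤ δ * x) (hE2 : (16 * C / δ) ^ 2 ≤ ε / 4 * x)
    (hE3 : 4 ≤ ε * δ * x) (hm1 : ε / 4 * (Real.sqrt N * x) ≤ m)
    (hm2 : x * m ≤ N * Real.sqrt N)
    (he : |(d + 2) * (d + 1) / 2 - N * ((m + 1) * m / 2)| < C * W) :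
    |m * (2 * Real.sqrt N) + Real.sqrt N - (2 * d + 3)| ≤ δ := by
  have hs : 1 ≤ Real.sqrt N := Real.one_le_sqrt.2 hN
  have hs2 : Real.sqrt N * Real.sqrt N = N := Real.mul_self_sqrt (by linarith)
  have hsq : Real.sqrt (m * N) = Real.sqrt m * Real.sqrt N := Real.sqrt_mul hm0.le _
  set s := Real.sqrt N with hsdef
  set e : ℝ := (d + 2) * (d + 1) / 2 - N * ((m + 1) * m / 2) with hedef
  have hms : 0 < m * s := by positivity
  have h1 : (m * (2 * s) + s - (2 * d + 3)) * (m * (2 * s) + s + (2 * d + 3)) =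
      -(8 * e + 1 - N) := by
    have : (m * (2 * s) + s - (2 * d + 3)) * (m * (2 * s) + s + (2 * d + 3)) =
        (2 * m + 1) ^ 2 * (s * s) - (2 * d + 3) ^ 2 := by ring
    rw [this, hs2, hedef]
    ring
  have h2 : |8 * e + 1 - N| ≤ 8 * (C * W) + N := by
    rw [abs_le]
    have := abs_lt.1 he
    constructor <;> linarith
  have h3 : |m * (2 * s) + s - (2 * d + 3)| * (2 * (m * s)) ≤ 8 * (C * W) + N := by
    calc |m * (2 * s) + s - (2 * d + 3)| * (2 * (m * s))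
        ≤ |m * (2 * s) + s - (2 * d + 3)| * |m * (2 * s) + s + (2 * d + 3)| := by
          refine mul_le_mul_of_nonneg_left ?_ (abs_nonneg _)
          refine le_trans ?_ (le_abs_self _)
          linarith
      _ = |8 * e + 1 - N| := by rw [← abs_mul, h1, abs_neg]
      _ ≤ _ := h2
  -- the three terms
  have t1 : 8 * C * (m ^ 2 / N * l ^ 3) ≤ δ / 2 * (m * s) := by
    have a1 : m ^ 2 / N * (x * δ) ≤ δ * (m * s) := by
      have a2 : m ^ 2 / N * (x * δ) = (x * m) * (m * δ) / N := by field_simp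
      rw [a2, div_le_iff₀ (by linarith)]
      calc x * m * (m * δ) ≤ (N * s) * (m * δ) :=
            mul_le_mul_of_nonneg_right hm2 (by positivity)
        _ = δ * (m * s) * N := by ring
    have a3 : m ^ 2 / N * (16 * C * l ^ 3) ≤ m ^ 2 / N * (δ * x) :=
      mul_le_mul_of_nonneg_left hE1 (by positivity)
    nlinarith
  have t2 : 8 * C * Real.sqrt (m * N) ≤ δ / 2 * (m * s) := by
    have a1 : (16 * C / δ) ^ 2 ≤ m := by
      refine hE2.trans (le_trans ?_ hm1)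
      have : x ≤ s * x := by nlinarith
      exact mul_le_mul_of_nonneg_left this (by positivity)
    have a2 : 16 * C / δ ≤ Real.sqrt m := Real.le_sqrt_of_sq_le a1
    have a3 : 16 * C ≤ δ * Real.sqrt m := by
      rw [div_le_iff₀ hδ] at a2
      linarith
    have a4 : Real.sqrt m * Real.sqrt m = m := Real.mul_self_sqrt hm0.le
    rw [hsq]
    have a5 : 0 ≤ Real.sqrt m * s := by positivity
    calc 8 * C * (Real.sqrt m * s) = (16 * C) * (Real.sqrt m * s) / 2 := by ring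
      _ ≤ (δ * Real.sqrt m) * (Real.sqrt m * s) / 2 := by
          have := mul_le_mul_of_nonneg_right a3 a5
          linarith
      _ = δ / 2 * ((Real.sqrt m * Real.sqrt m) * s) := by ring
      _ = δ / 2 * (m * s) := by rw [a4]
  have t3 : N ≤ δ * (m * s) := by
    have a1 : s ≤ δ * m := by
      have a2 : δ * (ε / 4 * (s * x)) ≤ δ * m := mul_le_mul_of_nonneg_left hm1 hδ.le
      have a3 : δ * (ε / 4 * (s * x)) = s * (ε * δ * x) / 4 := by ring
      rw [a3] at a2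
      nlinarith
    calc N = s * s := hs2.symm
      _ ≤ (δ * m) * s := mul_le_mul_of_nonneg_right a1 (by linarith)
      _ = δ * (m * s) := by ring
  have h4 : |m * (2 * s) + s - (2 * d + 3)| * (2 * (m * s)) ≤ δ * (2 * (m * s)) := by
    refine h3.trans ?_
    rw [hW]
    have : 8 * (C * (m ^ 2 / N * l ^ 3 + Real.sqrt (m * N))) =
        8 * C * (m ^ 2 / N * l ^ 3) + 8 * C * Real.sqrt (m * N) := by ring
    rw [this]
    linarith
  exact le_of_mul_le_mul_right h4 (by positivity)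

theorem main (h17a : GoalH17a) (P : ℕ → ℕ → ℕ → Prop) (hP : Win P) (ε : ℝ) (hε : 0 < ε)
    (hε1 : ε ≤ 1) : ∃ n0 : ℕ, ∀ n : ℕ, n0 ≤ n → ¬ IsSquare n → ∀ M : ℕ,
    (n : ℝ) ^ (1 / 2 + ε) ≤ M → (M : ℝ) ≤ (n : ℝ) ^ (3 / 2 - ε) →
    (Set.ncard {m : ℕ | 1 ≤ m ∧ m ≤ M ∧ ∃ d, ¬ P n m d} : ℝ) ≤ ε * M := by
  obtain ⟨C, hC, hwin⟩ := hP
  set δ : ℝ := ε / 32 with hδdef
  have hδ : 0 < δ := by positivity
  have hδ1 : δ < 1 / 4 := by rw [hδdef]; linarith
  set b1 : ℝ := 16 * C * (1 + 6 / ε) ^ 3 / δ with hb1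
  set b2 : ℝ := 4 / ε * (16 * C / δ) ^ 2 with hb2
  set b3 : ℝ := 4 / (ε * δ) with hb3
  set b4 : ℝ := 8 / (5 * ε) * (4 * δ + 1 + 10 / δ) with hb4
  set B : ℝ := b1 + b2 + b3 + b4 + 1 with hB
  have hb1' : 0 ≤ b1 := by positivity
  have hb2' : 0 ≤ b2 := by positivity
  have hb3' : 0 ≤ b3 := by positivity
  have hb4' : 0 ≤ b4 := by positivity
  have hev := ((tendsto_rpow_atTop (y := ε / 2) (by positivity)).comp
    tendsto_natCast_atTop_atTop).eventually_ge_atTop B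
  obtain ⟨n1, hn1⟩ := Filter.eventually_atTop.1 hev
  refine ⟨max n1 1, fun n hn hsq M hM1 hM2 => ?_⟩
  have hnn : 1 ≤ n := (le_max_right _ _).trans hn
  have hy : B ≤ (n : ℝ) ^ (ε / 2) := hn1 n ((le_max_left _ _).trans hn)
  have hN : (1 : ℝ) ≤ n := by exact_mod_cast hnn
  have hN0 : (0 : ℝ) < n := by linarith
  set y : ℝ := (n : ℝ) ^ (ε / 2) with hydef
  set x : ℝ := (n : ℝ) ^ ε with hxdef
  have hxy : x = y * y := by
    rw [hxdef, hydef, ← Real.rpow_add hN0]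
    congr 1
    ring
  have hy1 : 1 ≤ y := by linarith
  have hyx : y ≤ x := by rw [hxy]; nlinarith
  have hx0 : 0 < x := by linarith
  have hs : 1 ≤ Real.sqrt n := Real.one_le_sqrt.2 hN
  have hlog0 : 0 ≤ Real.log n := Real.log_nonneg hN
  have hl3 : (1 + Real.log n) ^ 3 ≤ (1 + 6 / ε) ^ 3 * y := by
    have a1 : Real.log n ≤ (n : ℝ) ^ (ε / 6) / (ε / 6) :=
      Real.log_le_rpow_div hN0.le (by positivity)
    have a2 : 1 ≤ (n : ℝ) ^ (ε / 6) := Real.one_le_rpow hN (by positivity)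
    have a3 : 1 + Real.log n ≤ (1 + 6 / ε) * (n : ℝ) ^ (ε / 6) := by
      have a4 : (n : ℝ) ^ (ε / 6) / (ε / 6) = 6 / ε * (n : ℝ) ^ (ε / 6) := by field_simp
      rw [a4] at a1
      nlinarith
    have a5 : ((n : ℝ) ^ (ε / 6)) ^ 3 = y := by
      rw [← Real.rpow_natCast, ← Real.rpow_mul hN0.le, hydef]
      congr 1
      push_cast
      ring
    calc (1 + Real.log n) ^ 3 ≤ ((1 + 6 / ε) * (n : ℝ) ^ (ε / 6)) ^ 3 :=
          pow_le_pow_left₀ (by linarith) a3 3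
      _ = (1 + 6 / ε) ^ 3 * y := by rw [mul_pow, a5]
  have hE1 : 16 * C * (1 + Real.log n) ^ 3 ≤ δ * x := by
    have a1 : 16 * C * (1 + 6 / ε) ^ 3 ≤ δ * y := by
      have a2 : b1 ≤ y := by linarith
      rw [hb1, div_le_iff₀ hδ] at a2
      linarith
    calc 16 * C * (1 + Real.log n) ^ 3 ≤ 16 * C * ((1 + 6 / ε) ^ 3 * y) :=
          mul_le_mul_of_nonneg_left hl3 (by positivity)
      _ = (16 * C * (1 + 6 / ε) ^ 3) * y := by ring
      _ ≤ (δ * y) * y := mul_le_mul_of_nonneg_right a1 (by linarith)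
      _ = δ * x := by rw [hxy]; ring
  have hE2 : (16 * C / δ) ^ 2 ≤ ε / 4 * x := by
    have a1 : b2 ≤ x := by linarith
    have a2 : ε / 4 * b2 ≤ ε / 4 * x := mul_le_mul_of_nonneg_left a1 (by positivity)
    have a3 : ε / 4 * b2 = (16 * C / δ) ^ 2 := by rw [hb2]; field_simp
    rwa [a3] at a2
  have hE3 : 4 ≤ ε * δ * x := by
    have a1 : b3 ≤ x := by linarith
    rw [hb3, div_le_iff₀ (by positivity)] at a1
    linarith
  have hE4 : 4 * δ + 1 + 10 / δ ≤ 5 / 8 * ε * x := by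
    have a1 : b4 ≤ x := by linarith
    have a2 : 5 / 8 * ε * b4 ≤ 5 / 8 * ε * x := mul_le_mul_of_nonneg_left a1 (by positivity)
    have a3 : 5 / 8 * ε * b4 = 4 * δ + 1 + 10 / δ := by rw [hb4]; field_simp
    rwa [a3] at a2
  have hM1' : Real.sqrt n * x ≤ M := by
    have : (n : ℝ) ^ (1 / 2 + ε) = Real.sqrt n * x := by
      rw [Real.rpow_add hN0, ← Real.sqrt_eq_rpow]
    rwa [this] at hM1
  have hM2' : x * M ≤ n * Real.sqrt n := by
    have a1 : x * (n : ℝ) ^ (3 / 2 - ε) = n * Real.sqrt n := by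
      rw [hxdef, ← Real.rpow_add hN0, Real.sqrt_eq_rpow]
      nth_rw 2 [← Real.rpow_one (n : ℝ)]
      rw [← Real.rpow_add hN0]
      congr 1
      ring
    rw [← a1]
    exact mul_le_mul_of_nonneg_left hM2 hx0.le
  have hM0 : (0 : ℝ) ≤ M := Nat.cast_nonneg M
  -- the two sets
  set S1 : Set ℕ := {m : ℕ | 1 ≤ m ∧ (m : ℝ) ≤ ε * M / 4} with hS1
  set S2 : Set ℕ := {m : ℕ | m < M + 1 ∧ ∃ p : ℤ,
    |(m : ℝ) * (2 * Real.sqrt n) + Real.sqrt n - p| ≤ δ} with hS2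
  have hS1' : S1 = ((Finset.Icc 1 ⌊ε * M / 4⌋₊ : Finset ℕ) : Set ℕ) := by
    ext m
    simp only [hS1, Set.mem_ofPred_eq, Finset.coe_Icc, Set.mem_Icc]
    rw [Nat.le_floor_iff (by positivity)]
  have hc1 : (S1.ncard : ℝ) ≤ ε * M / 4 := by
    rw [hS1', Set.ncard_coe_finset, Nat.card_Icc, Nat.add_sub_cancel]
    exact Nat.floor_le (by positivity)
  have hc2 : (S2.ncard : ℝ) ≤ 4 * δ * ((M + 1 : ℕ) : ℝ) + 4 / (2 * δ / (5 * Real.sqrt n)) + 1 :=
    h17a (2 * Real.sqrt n) (Real.sqrt n) δ (2 * δ / (5 * Real.sqrt n)) (M + 1) hδ hδ1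
      (by positivity) (fun q hq hqδ p => dist_lower hsq hnn hq hδ hδ1 hqδ p)
  have hfin : (S1 ∪ S2).Finite := by
    refine Set.Finite.union ?_ ?_
    · rw [hS1']; exact Finset.finite_toSet _
    · exact (Set.finite_lt_nat (M + 1)).subset fun m hm => hm.1
  have hsub : {m : ℕ | 1 ≤ m ∧ m ≤ M ∧ ∃ d, ¬ P n m d} ⊆ S1 ∪ S2 := by
    rintro m ⟨hm1, hm2, d, hd⟩
    by_cases hc : (m : ℝ) ≤ ε * M / 4
    · exact Or.inl ⟨hm1, hc⟩
    · push Not at hc
      refine Or.inr ⟨by omega, ((2 * d + 3 : ℕ) : ℤ), ?_⟩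
      have he : |((d + 2).choose 2 : ℝ) - n * ((m + 1).choose 2 : ℝ)| < C * win n m := by
        by_contra hcon
        push Not at hcon
        exact hd (hwin n m d hnn hm1 hcon)
      have hm0 : (0 : ℝ) < m := by exact_mod_cast hm1
      have hmM : (m : ℝ) ≤ M := by exact_mod_cast hm2
      have hk := key (N := n) (C := C) (δ := δ) (ε := ε) (x := x) (l := 1 + Real.log n)
        (m := m) (d := d) (W := win n m) hN hδ hε hx0 hm0 (Nat.cast_nonneg d)
        rfl hE1 hE2 hE3 ?_ ?_ ?_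
      · have : (((2 * d + 3 : ℕ) : ℤ) : ℝ) = 2 * (d : ℝ) + 3 := by push_cast; ring
        rw [this]
        exact hk
      · have := mul_le_mul_of_nonneg_left hM1' (by positivity : 0 ≤ ε / 4)
        linarith
      · exact (mul_le_mul_of_nonneg_left hmM hx0.le).trans hM2'
      · have e1 : ((d + 2).choose 2 : ℝ) = ((d : ℝ) + 2) * (d + 1) / 2 := by
          rw [Nat.cast_choose_two]
          push_cast
          ring
        have e2 : ((m + 1).choose 2 : ℝ) = ((m : ℝ) + 1) * m / 2 := by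
          rw [Nat.cast_choose_two]
          push_cast
          ring
        rwa [e1, e2] at he
  have h1 : (Set.ncard {m : ℕ | 1 ≤ m ∧ m ≤ M ∧ ∃ d, ¬ P n m d} : ℝ) ≤
      (S1.ncard : ℝ) + S2.ncard := by
    have a1 := Set.ncard_le_ncard hsub hfin
    have a2 := Set.ncard_union_le S1 S2
    exact_mod_cast a1.trans a2
  refine h1.trans ?_
  have e3 : 4 / (2 * δ / (5 * Real.sqrt n)) = 10 / δ * Real.sqrt n := by
    field_simp
    ring
  rw [e3] at hc2
  push_cast at hc2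
  have e4 : 4 * δ + 1 + 10 / δ * Real.sqrt n ≤ 5 / 8 * ε * M := by
    have a1 : (4 * δ + 1 + 10 / δ) * Real.sqrt n ≤ (5 / 8 * ε * x) * Real.sqrt n :=
      mul_le_mul_of_nonneg_right hE4 (by linarith)
    have a2 : (5 / 8 * ε * x) * Real.sqrt n = 5 / 8 * ε * (Real.sqrt n * x) := by ring
    have a3 : 5 / 8 * ε * (Real.sqrt n * x) ≤ 5 / 8 * ε * M :=
      mul_le_mul_of_nonneg_left hM1' (by positivity)
    have a4 : 4 * δ + 1 ≤ (4 * δ + 1) * Real.sqrt n := by nlinarith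
    nlinarith
  have e5 : 4 * δ * ((M : ℝ) + 1) = ε * M / 8 + 4 * δ := by rw [hδdef]; ring
  rw [e5] at hc2
  linarith

theorem goalH17 (h17a : GoalH17a) : GoalH17 := by
  intro P hP ε hε
  obtain ⟨n0, h⟩ := main h17a P hP (min ε 1) (lt_min hε one_pos) (min_le_right _ _)
  refine ⟨max n0 1, fun n hn hsq M hM1 hM2 => ?_⟩
  have hN : (1 : ℝ) ≤ n := by exact_mod_cast (le_max_right _ _).trans hn
  have h1 := h n ((le_max_left _ _).trans hn) hsq M
    ((Real.rpow_le_rpow_of_exponent_le hN (by linarith [min_le_left ε 1])).trans hM1)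
    (hM2.trans (Real.rpow_le_rpow_of_exponent_le hN (by linarith [min_le_left ε 1])))
  exact h1.trans (mul_le_mul_of_nonneg_right (min_le_left _ _) (Nat.cast_nonneg M))

end Pool.Agent.Helper43.Hw.PkH17
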